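import Mathlib
import Pool.Graph.R_seed8.Results.MP_b9fb92_an.PolygonalArc

/-! Interval exchanges: elementary facts, and the chain lemma. -/

set_option autoImplicit false

namespace Pool.Agent.KS6_56.IT

open Set Pool.Agent.Results.MP_b9fb92_an.PolygonalArc

variable {d : ℕ} (E : IET d)

theorem Ij_eq (j : Fin d) : E.Ij j = Ico (lft E.len j) (lft E.len j + E.len j) := rfl

theorem left_eq (j : Fin d) : E.left j = lft E.len j := rfl

theorem exists_Ij {x : ℝ} (hx : x ∈ E.I) : ∃ j, x ∈ E.Ij j := cover E.len x hx.1 hx.2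

theorem left_nonneg (j : Fin d) : 0 ≤ E.left j := lft_nonneg E.len_pos j

theorem left_mem (j : Fin d) : E.left j ∈ E.Ij j := ⟨le_rfl, by linarith [E.len_pos j]⟩

theorem Ij_sub (j : Fin d) : E.Ij j ⊆ E.I := fun _ hx =>
  ⟨(left_nonneg E j).trans hx.1, hx.2.trans_le (lft_add_le_sum E.len_pos j)⟩

theorem Ij_unique {i j : Fin d} {x : ℝ} (hi : x ∈ E.Ij i) (hj : x ∈ E.Ij j) : i = j := by
  by_contra h
  rcases lt_or_gt_of_ne h with h | h
  · have := lft_add_le E.len_pos h
    have h1 := hi.2; have h2 := hj.1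
    rw [left_eq] at h1 h2; linarith
  · have := lft_add_le E.len_pos h
    have h1 := hj.2; have h2 := hi.1
    rw [left_eq] at h1 h2; linarith

theorem map_eq {j : Fin d} {x : ℝ} (hx : x ∈ E.Ij j) : E.map x = x + E.τ j := by
  unfold IET.map
  rw [Finset.sum_eq_single j, indicator_of_mem hx]
  · intro i _ hij
    exact indicator_of_notMem (fun hi => hij (Ij_unique E hi hx)) _
  · simp

/-- the lengths in the new order -/
def len' (m : Fin d) : ℝ := E.len (E.perm.symm m)

theorem len'_pos (m : Fin d) : 0 < len' E m := E.len_pos _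

theorem sum_len' : ∑ m, len' E m = ∑ k, E.len k := Equiv.sum_comp E.perm.symm E.len

theorem lft_len' (j : Fin d) : lft (len' E) (E.perm j) = ∑ k with E.perm k < E.perm j, E.len k := by
  unfold lft len'
  symm
  apply Finset.sum_equiv E.perm
  · intro i; simp
  · intro i _; simp

theorem τ_eq (j : Fin d) : E.τ j = lft (len' E) (E.perm j) - E.left j := by
  rw [lft_len']; rfl

theorem map_Ij {j : Fin d} {x : ℝ} (hx : x ∈ E.Ij j) :
    E.map x ∈ Ico (lft (len' E) (E.perm j)) (lft (len' E) (E.perm j) + len' E (E.perm j)) := by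
  rw [map_eq E hx, τ_eq]
  have e : len' E (E.perm j) = E.len j := by simp [len']
  rw [e]
  exact ⟨by linarith [hx.1], by linarith [hx.2]⟩

theorem map_mem {x : ℝ} (hx : x ∈ E.I) : E.map x ∈ E.I := by
  obtain ⟨j, hj⟩ := exists_Ij E hx
  have h := map_Ij E hj
  have h1 := lft_nonneg (len'_pos E) (E.perm j)
  have h2 := lft_add_le_sum (len'_pos E) (E.perm j)
  rw [sum_len'] at h2
  exact ⟨h1.trans h.1, h.2.trans_le h2⟩

theorem mapsTo_I : MapsTo E.map E.I E.I := fun _ hx => map_mem E hx

theorem map_surj {y : ℝ} (hy : y ∈ E.I) : ∃ x ∈ E.I, E.map x = y := by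
  obtain ⟨m, hm⟩ := cover (len' E) y hy.1 (by rw [sum_len']; exact hy.2)
  obtain ⟨j, rfl⟩ := E.perm.surjective m
  have e : len' E (E.perm j) = E.len j := by simp [len']
  rw [e] at hm
  have hx : y - E.τ j ∈ E.Ij j := by
    rw [τ_eq]
    exact ⟨by linarith [hm.1], by linarith [hm.2]⟩
  exact ⟨_, Ij_sub E j hx, by rw [map_eq E hx]; ring⟩

theorem map_inj : InjOn E.map E.I := by
  intro x hx y hy h
  obtain ⟨i, hi⟩ := exists_Ij E hx
  obtain ⟨j, hj⟩ := exists_Ij E hy
  have h1 := map_Ij E hi
  have h2 := map_Ij E hj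
  rw [← h] at h2
  have hij : i = j := by
    by_contra hne
    have hne' : E.perm i ≠ E.perm j := fun h => hne (E.perm.injective h)
    rcases lt_or_gt_of_ne hne' with h3 | h3
    · have := lft_add_le (len'_pos E) h3
      linarith [h1.2, h2.1]
    · have := lft_add_le (len'_pos E) h3
      linarith [h2.2, h1.1]
  subst hij
  rw [map_eq E hi, map_eq E hj] at h
  linarith

theorem iter_mem (n : ℕ) {x : ℝ} (hx : x ∈ E.I) : E.map^[n] x ∈ E.I := (mapsTo_I E).iterate n hx

theorem iter_inj (n : ℕ) : InjOn (E.map^[n]) E.I := (map_inj E).iterate (mapsTo_I E) n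

variable {E}

/-- a minimal exchange has no periodic point -/
theorem no_periodic (hE : E.IsMinimal) {x : ℝ} (hx : x ∈ E.I) {n : ℕ} (h : E.map^[n] x = x) : n = 0 := by
  by_contra hn
  have hn : 0 < n := Nat.pos_of_ne_zero hn
  have h1 : {y | ∃ m : ℕ, y = E.map^[m] x} ⊆ (fun m => E.map^[m] x) '' (Finset.range n : Set ℕ) := by
    rintro y ⟨m, rfl⟩
    refine ⟨m % n, by simpa using Nat.mod_lt m hn, ?_⟩
    exact Function.IsPeriodicPt.iterate_mod_apply h m
  have h2 : ({y | ∃ m : ℕ, y = E.map^[m] x} : Set ℝ).Finite := ((Finset.finite_toSet _).image _).subset h1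
  have h3 := hE x hx
  rw [h2.isClosed.closure_eq] at h3
  have h4 : (E.I).Finite := h2.subset h3
  have h5 : (E.I).Infinite := Ico_infinite (lt_of_le_of_lt hx.1 hx.2)
  exact h5 h4

theorem iter_eq (hE : E.IsMinimal) {x : ℝ} (hx : x ∈ E.I) {m n : ℕ} (h : E.map^[m] x = E.map^[n] x) : m = n := by
  wlog hmn : m ≤ n with H
  · exact (H hE hx h.symm (by omega)).symm
  obtain ⟨r, rfl⟩ := Nat.exists_eq_add_of_le hmn
  rw [Function.iterate_add_apply] at h
  have := iter_inj E m hx (iter_mem E r hx) h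
  have := no_periodic hE hx this.symm
  omega

theorem left_zero (hd : 0 < d) : E.left ⟨0, hd⟩ = 0 := by
  unfold IET.left
  apply Finset.sum_eq_zero
  intro k hk
  rw [Finset.mem_filter, Fin.lt_def] at hk
  simp at hk

/-- the sequence of the preimages -/
noncomputable def back (E : IET d) (p : E.I) : ℕ → E.I
  | 0 => p
  | n + 1 => ⟨(map_surj E (back E p n).2).choose, (map_surj E (back E p n).2).choose_spec.1⟩

theorem map_back (p : E.I) (n : ℕ) : E.map (back E p (n + 1)) = back E p n :=
  (map_surj E (back E p n).2).choose_spec.2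

theorem iter_back (p : E.I) (m n : ℕ) : E.map^[n] (back E p (m + n)) = back E p m := by
  induction n with
  | zero => rfl
  | succ n ih => rw [Function.iterate_succ_apply, ← Nat.add_assoc, map_back, ih]

/-- `w` is not constant near `p` -/
def Jump (w : ℝ → ℂ) (p : ℝ) : Prop := ∀ ε > 0, ∃ x, |x - p| < ε ∧ w x ≠ w p

/-- `E` has a connection of length at least two: the image of a left end point `x_j` (possibly
`x_0 = 0`) is not itself a left end point, but one of its iterates is. -/
def HasConnection (E : IET d) : Prop := ∃ j k : Fin d, ∃ n : ℕ,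
  (∀ i, E.map (E.left j) ≠ E.left i) ∧ E.map^[n] (E.map (E.left j)) = E.left k

/-- jumps are transported by the exchange -/
theorem jump_iff {w : ℝ → ℂ} {c : Fin d → ℂ} (hc : ∀ j, c j ≠ 0)
    (hw : ∀ j, ∀ x ∈ E.Ij j, w (E.map x) = c j * w x) {p : ℝ} (hp : p ∈ E.I) (hpZ : ∀ i, p ≠ E.left i) :
    Jump w p ↔ Jump w (E.map p) := by
  obtain ⟨j, hj⟩ := exists_Ij E hp
  have h1 : E.left j < p := lt_of_le_of_ne hj.1 (hpZ j).symm
  have h2 : p < E.left j + E.len j := hj.2
  set δ : ℝ := min (p - E.left j) (E.left j + E.len j - p) with hδ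
  have hδ0 : 0 < δ := lt_min (by linarith) (by linarith)
  have hin : ∀ x, |x - p| < δ → x ∈ E.Ij j := by
    intro x hx
    rw [abs_lt] at hx
    have a1 : δ ≤ p - E.left j := min_le_left _ _
    have a2 : δ ≤ E.left j + E.len j - p := min_le_right _ _
    exact ⟨by linarith [hx.1], by linarith [hx.2]⟩
  have ep := map_eq E hj
  constructor
  · intro h ε hε
    obtain ⟨x, hx1, hx2⟩ := h (min ε δ) (lt_min hε hδ0)
    have hx := hin x (hx1.trans_le (min_le_right _ _))
    refine ⟨E.map x, ?_, ?_⟩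
    · rw [map_eq E hx, ep]
      have : x + E.τ j - (p + E.τ j) = x - p := by ring
      rw [this]
      exact hx1.trans_le (min_le_left _ _)
    · rw [hw j x hx, hw j p hj]
      exact fun h3 => hx2 (mul_left_cancel₀ (hc j) h3)
  · intro h ε hε
    obtain ⟨y, hy1, hy2⟩ := h (min ε δ) (lt_min hε hδ0)
    have e : y - E.τ j - p = y - E.map p := by rw [ep]; ring
    have hx : y - E.τ j ∈ E.Ij j := hin _ (by rw [e]; exact hy1.trans_le (min_le_right _ _))
    refine ⟨y - E.τ j, by rw [e]; exact hy1.trans_le (min_le_left _ _), ?_⟩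
    intro h3
    apply hy2
    have e2 : E.map (y - E.τ j) = y := by rw [map_eq E hx]; ring
    rw [← e2, hw j _ hx, hw j p hj, h3]

/-- THE CHAIN LEMMA -/
theorem chain (hd : 0 < d) (hE : E.IsMinimal) {w : ℝ → ℂ} (F : Finset ℝ)
    (hF : ∀ p ∈ E.I, 0 < p → Jump w p → p ∈ F) {c : Fin d → ℂ} (hc : ∀ j, c j ≠ 0)
    (hw : ∀ j, ∀ x ∈ E.Ij j, w (E.map x) = c j * w x) {p : ℝ} (hp : p ∈ E.I) (hpZ : ∀ i, p ≠ E.left i)
    (hJ : Jump w p) : HasConnection E := by
  have hpos : ∀ x ∈ E.I, (∀ i, x ≠ E.left i) → 0 < x := by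
    intro x hx h
    refine lt_of_le_of_ne hx.1 ?_
    rw [← left_zero (E := E) hd]
    exact (h _).symm
  -- forwards
  have h1 : ∃ n k, E.map^[n] p = E.left k := by
    by_contra hcon
    push Not at hcon
    have h2 : ∀ n, Jump w (E.map^[n] p) := by
      intro n
      induction n with
      | zero => exact hJ
      | succ n ih =>
        rw [Function.iterate_succ_apply']
        exact (jump_iff hc hw (iter_mem E n hp) (hcon n)).1 ih
    have h3 : ∀ n, E.map^[n] p ∈ (F : Set ℝ) := fun n =>
      hF _ (iter_mem E n hp) (hpos _ (iter_mem E n hp) (hcon n)) (h2 n)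
    exact Set.infinite_of_injective_forall_mem (fun m n h => iter_eq hE hp h) h3 F.finite_toSet
  -- backwards
  set b : ℕ → ℝ := fun n => (back E ⟨p, hp⟩ n : ℝ) with hb
  have hbI : ∀ n, b n ∈ E.I := fun n => (back E ⟨p, hp⟩ n).2
  have hb0 : b 0 = p := rfl
  have hbs : ∀ n, E.map (b (n + 1)) = b n := fun n => map_back _ n
  have h4 : ∃ l, ∃ i, b (l + 1) = E.left i := by
    by_contra hcon
    push Not at hcon
    have h5 : ∀ n, ∀ i, b n ≠ E.left i := by
      intro n
      cases n with
      | zero => exact hpZ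
      | succ n => exact hcon n
    have h6 : ∀ n, Jump w (b n) := by
      intro n
      induction n with
      | zero => exact hJ
      | succ n ih =>
        rw [jump_iff hc hw (hbI _) (h5 _), hbs]
        exact ih
    have h7 : ∀ n, b n ∈ (F : Set ℝ) := fun n => hF _ (hbI n) (hpos _ (hbI n) (h5 n)) (h6 n)
    have key : ∀ m n, m ≤ n → b m = b n → m = n := by
      intro m n hmn h
      obtain ⟨r, rfl⟩ := Nat.exists_eq_add_of_le hmn
      have e := iter_back (E := E) ⟨p, hp⟩ m r
      have e2 : E.map^[r] (b (m + r)) = b m := e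
      rw [h] at e2
      have := no_periodic hE (hbI _) e2
      omega
    refine Set.infinite_of_injective_forall_mem (fun m n h => ?_) h7 F.finite_toSet
    rcases le_total m n with hmn | hmn
    · exact key m n hmn h
    · exact (key n m hmn h.symm).symm
  classical
  obtain ⟨i, hi⟩ := Nat.find_spec h4
  set l := Nat.find h4 with hl
  obtain ⟨n, k, hnk⟩ := h1
  refine ⟨i, k, n + l, ?_, ?_⟩
  · rw [← hi, hbs]
    intro i'
    rcases Nat.eq_zero_or_pos l with h | h
    · rw [h, hb0]; exact hpZ i'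
    · intro h8
      have h9 := Nat.find_min h4 (m := l - 1) (by omega)
      apply h9
      refine ⟨i', ?_⟩
      rw [Nat.sub_add_cancel h]
      exact h8
  · rw [← hi, hbs, Function.iterate_add_apply]
    have e : E.map^[l] (b l) = b 0 := by
      have := iter_back (E := E) ⟨p, hp⟩ 0 l
      rw [Nat.zero_add] at this
      exact this
    rw [e, hb0, hnk]

end Pool.Agent.KS6_56.IT
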