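import Mathlib
import Pool.Agent.KS6_56.IT.A

/-! A piecewise twice differentiable embedding of an exchange without connections is trivial. -/

set_option autoImplicit false

namespace Pool.Agent.KS6_56.IT

open Set Filter Topology Pool.Agent.Results.MP_b9fb92_an.PolygonalArc

open scoped ComplexConjugate

variable {d : ℕ} {E : IET d}

/-- `h` is piecewise `C²`: there is a finite set `F` such that `h` agrees with a twice continuously
differentiable function of the line on every interval `[x, y)` of `I` without points of `F` in its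
interior. -/
def PiecewiseC2 (E : IET d) (h : ℝ → ℂ) : Prop :=
  ∃ F : Finset ℝ, ∀ x ∈ E.I, ∃ g : ℝ → ℂ, ContDiff ℝ 2 g ∧
    ∀ y ∈ E.I, x ≤ y → (∀ z ∈ F, z ≤ x ∨ y < z) → h y = g y

/-- `h` is polygonal: there is a finite set `F` such that `h` is affine on every interval `[x, y)` of
`I` without points of `F` in its interior. -/
def Polygonal (E : IET d) (h : ℝ → ℂ) : Prop :=
  ∃ F : Finset ℝ, ∀ x ∈ E.I, ∃ u v : ℂ,
    ∀ y ∈ E.I, x ≤ y → (∀ z ∈ F, z ≤ x ∨ y < z) → h y = u + v * y

theorem Polygonal.c2 {h : ℝ → ℂ} (H : Polygonal E h) : PiecewiseC2 E h := by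
  obtain ⟨F, hF⟩ := H
  refine ⟨F, fun x hx => ?_⟩
  obtain ⟨u, v, huv⟩ := hF x hx
  refine ⟨fun y => u + v * y, ?_, huv⟩
  exact contDiff_const.add (contDiff_const.mul Complex.ofRealCLM.contDiff)

theorem gap (F : Finset ℝ) {x : ℝ} (hx : x ∈ E.I) :
    ∃ δ > 0, ∀ y, x ≤ y → y < x + δ → y ∈ E.I ∧ ∀ z ∈ F, z ≤ x ∨ y < z := by
  have h1 : ∀ᶠ y in 𝓝 x, ∀ z ∈ F, z ≤ x ∨ y < z := by
    rw [Filter.eventually_all_finset]
    intro z _
    rcases le_or_gt z x with h | h
    · exact Eventually.of_forall fun _ => Or.inl h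
    · filter_upwards [Iio_mem_nhds h] with y hy
      exact Or.inr hy
  have h2 : ∀ᶠ y in 𝓝 x, y < ∑ k, E.len k := Iio_mem_nhds hx.2
  obtain ⟨δ, hδ, h3⟩ := Metric.eventually_nhds_iff.1 (h1.and h2)
  refine ⟨δ, hδ, fun y h4 h5 => ?_⟩
  have h6 := h3 (y := y) (by rw [Real.dist_eq, abs_of_nonneg (by linarith)]; linarith)
  exact ⟨⟨hx.1.trans h4, h6.2⟩, h6.1⟩

theorem gap_left (F : Finset ℝ) {p : ℝ} (hp : 0 < p) (hpF : p ∉ F) :
    ∃ x, 0 ≤ x ∧ x < p ∧ ∀ z ∈ F, z ≤ x ∨ p < z := by
  have h1 : ∀ᶠ y in 𝓝 p, ∀ z ∈ F, z ≤ y ∨ p < z := by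
    rw [Filter.eventually_all_finset]
    intro z hz
    rcases lt_or_ge p z with h | h
    · exact Eventually.of_forall fun _ => Or.inr h
    · have h' : z < p := lt_of_le_of_ne h (fun e => hpF (e ▸ hz))
      filter_upwards [Ioi_mem_nhds h'] with y hy
      exact Or.inl (le_of_lt hy)
  obtain ⟨δ, hδ, h3⟩ := Metric.eventually_nhds_iff.1 h1
  refine ⟨max 0 (p - δ / 2), le_max_left _ _, max_lt hp (by linarith), ?_⟩
  apply h3
  rw [Real.dist_eq, abs_lt]
  constructor
  · have := le_max_right 0 (p - δ / 2)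
    linarith
  · have : max 0 (p - δ / 2) < p := max_lt hp (by linarith)
    linarith

/-- a function vanishing on a right neighbourhood has derivative zero there -/
theorem jet1 {u u1 : ℝ → ℂ} (h : ∀ t, HasDerivAt u (u1 t) t) (hc : Continuous u1) {y δ : ℝ} (hδ : 0 < δ)
    (h0 : ∀ t, y ≤ t → t < y + δ → u t = 0) : ∀ t, y ≤ t → t < y + δ → u1 t = 0 := by
  have h1 : ∀ t ∈ Ioo y (y + δ), u1 t = 0 := by
    intro t ht
    have h2 : u =ᶠ[𝓝 t] fun _ => (0 : ℂ) := by
      filter_upwards [Ioo_mem_nhds ht.1 ht.2] with s hs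
      exact h0 s hs.1.le hs.2
    exact (h t).unique ((hasDerivAt_const t (0 : ℂ)).congr_of_eventuallyEq h2)
  have h3 : IsClosed {t | u1 t = 0} := isClosed_eq hc continuous_const
  have h4 : closure (Ioo y (y + δ)) ⊆ {t | u1 t = 0} := h3.closure_subset_iff.2 h1
  rw [closure_Ioo (by linarith)] at h4
  exact fun t ht1 ht2 => h4 ⟨ht1, ht2.le⟩

/-- the data of a `C²` function -/
theorem c2_data {g : ℝ → ℂ} (hg : ContDiff ℝ 2 g) : (∀ t, HasDerivAt g (deriv g t) t) ∧
    (∀ t, HasDerivAt (deriv g) (deriv (deriv g) t) t) ∧ Continuous (deriv g) ∧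
    Continuous (deriv (deriv g)) := by
  have h1 : ContDiff ℝ (1 + 1) g := by
    have : (1 + 1 : WithTop ℕ∞) = 2 := by norm_num
    rw [this]; exact hg
  rw [contDiff_succ_iff_deriv] at h1
  obtain ⟨a1, -, a3⟩ := h1
  have h2 := (a3.differentiable (by norm_num))
  refine ⟨fun t => (a1 t).hasDerivAt, fun t => (h2 t).hasDerivAt, h2.continuous, ?_⟩
  exact a3.continuous_deriv (by norm_num)

/-- an invariant right continuous function is constant -/
theorem inv_const (hE : E.IsMinimal) {u : ℝ → ℝ} (hu : ∀ x ∈ E.I, u (E.map x) = u x)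
    (hr : ∀ x ∈ E.I, ∀ ε > 0, ∃ δ > 0, ∀ y, x ≤ y → y < x + δ → |u y - u x| < ε) {x x' : ℝ}
    (hx : x ∈ E.I) (hx' : x' ∈ E.I) : u x = u x' := by
  have hit : ∀ n, u (E.map^[n] x) = u x := by
    intro n
    induction n with
    | zero => rfl
    | succ n ih => rw [Function.iterate_succ_apply', hu _ (iter_mem E n hx), ih]
  refine eq_of_forall_dist_le fun ε hε => ?_
  obtain ⟨δ, hδ, h1⟩ := hr x' hx' ε hε
  obtain ⟨δ', hδ', h2⟩ := gap ∅ hx'
  set r := min δ δ' with hrdef
  have hr0 : 0 < r := lt_min hδ hδ'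
  have r1 : r ≤ δ := min_le_left _ _
  have r2 : r ≤ δ' := min_le_right _ _
  have h3 : x' + r / 2 ∈ E.I := (h2 _ (by linarith) (by linarith)).1
  obtain ⟨_, ⟨n, rfl⟩, hn⟩ := Metric.mem_closure_iff.1 (hE x hx h3) (r / 2) (by linarith)
  rw [Real.dist_eq, abs_lt] at hn
  have h4 := h1 (E.map^[n] x) (by linarith [hn.2]) (by linarith [hn.1])
  rw [hit n] at h4
  rw [Real.dist_eq]
  exact h4.le

theorem const_right {f : ℝ → ℂ} {a b : ℝ} (hc : ContinuousOn f (Icc a b))
    (hd : ∀ x ∈ Ico a b, HasDerivWithinAt f 0 (Ici x) x) (hab : a ≤ b) : f b = f a :=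
  constant_of_has_deriv_right_zero hc hd b ⟨hab, le_rfl⟩

theorem necessity (hd : 0 < d) (hE : E.IsMinimal) {P : PWI d} {h : ℝ → ℂ}
    (hh : IsContinuousEmbedding E P h) (H : PiecewiseC2 E h) (hn : ¬ HasConnection E) : IsTrivial E h := by
  obtain ⟨F, H⟩ := H
  choose! g hg1 hg2 using H
  set g1 : ℝ → ℝ → ℂ := fun x => deriv (g x) with hg1def
  set g2 : ℝ → ℝ → ℂ := fun x => deriv (deriv (g x)) with hg2def
  have D1 : ∀ x ∈ E.I, ∀ t, HasDerivAt (g x) (g1 x t) t := fun x hx => (c2_data (hg1 x hx)).1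
  have D2 : ∀ x ∈ E.I, ∀ t, HasDerivAt (g1 x) (g2 x t) t := fun x hx => (c2_data (hg1 x hx)).2.1
  have C1 : ∀ x ∈ E.I, Continuous (g1 x) := fun x hx => (c2_data (hg1 x hx)).2.2.1
  have C2 : ∀ x ∈ E.I, Continuous (g2 x) := fun x hx => (c2_data (hg1 x hx)).2.2.2
  set a : ℝ → ℂ := fun x => g1 x x with ha
  set b : ℝ → ℂ := fun x => g2 x x with hb
  -- locality
  have R1 : ∀ x ∈ E.I, ∀ y ∈ E.I, x ≤ y → (∀ z ∈ F, z ≤ x ∨ y < z) → a y = g1 x y ∧ b y = g2 x y := by
    intro x hx y hy hxy hF
    obtain ⟨δ, hδ, hδ2⟩ := gap F hy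
    have h0 : ∀ t, y ≤ t → t < y + δ → g y t - g x t = 0 := by
      intro t h1 h2
      obtain ⟨h3, h4⟩ := hδ2 t h1 h2
      rw [← hg2 y hy t h3 h1 h4, ← hg2 x hx t h3 (hxy.trans h1) ?_, sub_self]
      intro z hz
      rcases h4 z hz with h5 | h5
      · rcases hF z hz with h6 | h6
        · exact Or.inl h6
        · exact absurd h5 (not_le.2 h6)
      · exact Or.inr h5
    have h1 := jet1 (u := fun t => g y t - g x t) (u1 := fun t => g1 y t - g1 x t)
      (fun t => (D1 y hy t).sub (D1 x hx t)) ((C1 y hy).sub (C1 x hx)) hδ h0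
    have h2 := jet1 (u := fun t => g1 y t - g1 x t) (u1 := fun t => g2 y t - g2 x t)
      (fun t => (D2 y hy t).sub (D2 x hx t)) ((C2 y hy).sub (C2 x hx)) hδ h1
    exact ⟨sub_eq_zero.1 (h1 y le_rfl (by linarith)), sub_eq_zero.1 (h2 y le_rfl (by linarith))⟩
  -- invariance
  obtain ⟨σ, hσ⟩ := hh.atoms
  set c : Fin d → ℂ := fun j => Complex.exp (P.θ (σ j) * Complex.I) with hcdef
  have hc1 : ∀ j, ‖c j‖ = 1 := fun j => Complex.norm_exp_ofReal_mul_I _
  have hc0 : ∀ j, c j ≠ 0 := fun j => Complex.exp_ne_zero _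
  have hT : ∀ j, ∀ x ∈ E.Ij j, h (E.map x) = c j * h x + P.lam (σ j) := by
    intro j x hx
    rw [hh.conj x (Ij_sub E j hx), P.T_eq (σ j) _ (hσ j ⟨x, hx, rfl⟩)]
  have R2 : ∀ j, ∀ x ∈ E.Ij j, a (E.map x) = c j * a x ∧ b (E.map x) = c j * b x := by
    intro j x hx
    have hxI := Ij_sub E j hx
    have hmI := map_mem E hxI
    obtain ⟨δ1, hδ1, h1⟩ := gap F hxI
    obtain ⟨δ2, hδ2, h2⟩ := gap F hmI
    set δ := min (min δ1 δ2) (E.left j + E.len j - x) with hδ
    have hδ0 : 0 < δ := lt_min (lt_min hδ1 hδ2) (by linarith [hx.2])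
    have d1 : δ ≤ δ1 := (min_le_left _ _).trans (min_le_left _ _)
    have d2 : δ ≤ δ2 := (min_le_left _ _).trans (min_le_right _ _)
    have d3 : δ ≤ E.left j + E.len j - x := min_le_right _ _
    have em := map_eq E hx
    have h0 : ∀ t, x ≤ t → t < x + δ → g (E.map x) (t + E.τ j) - (c j * g x t + P.lam (σ j)) = 0 := by
      intro t h3 h4
      have ht : t ∈ E.Ij j := ⟨hx.1.trans h3, by linarith⟩
      obtain ⟨h5, h6⟩ := h1 t h3 (by linarith)
      obtain ⟨h7, h8⟩ := h2 (t + E.τ j) (by rw [em]; linarith) (by rw [em]; linarith)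
      rw [← hg2 x hxI t h5 h3 h6, ← hg2 (E.map x) hmI _ h7 (by rw [em]; linarith) h8,
        ← map_eq E ht, hT j t ht, sub_self]
    have h3 := jet1 (u := fun t => g (E.map x) (t + E.τ j) - (c j * g x t + P.lam (σ j)))
      (u1 := fun t => g1 (E.map x) (t + E.τ j) - c j * g1 x t)
      (fun t => by
        have e1 := (D1 (E.map x) hmI (t + E.τ j)).comp_add_const t (E.τ j)
        have e2 := ((D1 x hxI t).const_mul (c j)).add_const (P.lam (σ j))
        exact e1.sub e2)
      (by
        have := C1 (E.map x) hmI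
        have := C1 x hxI
        fun_prop) hδ0 h0
    have h4 := jet1 (u := fun t => g1 (E.map x) (t + E.τ j) - c j * g1 x t)
      (u1 := fun t => g2 (E.map x) (t + E.τ j) - c j * g2 x t)
      (fun t => by
        have e1 := (D2 (E.map x) hmI (t + E.τ j)).comp_add_const t (E.τ j)
        have e2 := (D2 x hxI t).const_mul (c j)
        exact e1.sub e2)
      (by
        have := C2 (E.map x) hmI
        have := C2 x hxI
        fun_prop) hδ0 h3
    have h5 := sub_eq_zero.1 (h3 x le_rfl (by linarith))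
    have h6 := sub_eq_zero.1 (h4 x le_rfl (by linarith))
    rw [← em] at h5 h6
    exact ⟨h5, h6⟩
  -- speed and curvature
  have key : ∀ (u : ℝ → ℝ) (v : ℂ → ℂ → ℝ), (∀ x, u x = v (a x) (b x)) → Continuous (fun p : ℂ × ℂ => v p.1 p.2) →
      (∀ (w z z' : ℂ), ‖w‖ = 1 → v (w * z) (w * z') = v z z') →
      ∀ x ∈ E.I, ∀ x' ∈ E.I, u x = u x' := by
    intro u v huv hv hinv x hx x' hx'
    refine inv_const hE ?_ ?_ hx hx'
    · intro y hy
      obtain ⟨j, hj⟩ := exists_Ij E hy
      rw [huv, huv, (R2 j y hj).1, (R2 j y hj).2, hinv _ _ _ (hc1 j)]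
    · intro y hy ε hε
      obtain ⟨δ, hδ, h1⟩ := gap F hy
      have hcont : Continuous (fun t => v (g1 y t) (g2 y t)) := hv.comp ((C1 y hy).prodMk (C2 y hy))
      obtain ⟨δ', hδ', h2⟩ := Metric.continuousAt_iff.1 (hcont.continuousAt (x := y)) ε hε
      refine ⟨min δ δ', lt_min hδ hδ', fun t h3 h4 => ?_⟩
      obtain ⟨h5, h6⟩ := h1 t h3 (by have := min_le_left δ δ'; linarith)
      rw [huv, huv, (R1 y hy t h5 h3 h6).1, (R1 y hy t h5 h3 h6).2]
      have := h2 (x := t) (by
        rw [Real.dist_eq, abs_of_nonneg (by linarith)]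
        have := min_le_right δ δ'; linarith)
      rw [Real.dist_eq] at this
      exact this
  have h0I : (0 : ℝ) ∈ E.I := by
    rw [← left_zero (E := E) hd]; exact Ij_sub E _ (left_mem E _)
  have hSc : ∀ x ∈ E.I, Complex.normSq (a x) = Complex.normSq (a 0) := fun x hx =>
    key (fun x => Complex.normSq (a x)) (fun z _ => Complex.normSq z) (fun _ => rfl)
      (Complex.continuous_normSq.comp continuous_fst)
      (fun w z _ hw => by rw [Complex.normSq_mul, Complex.normSq_eq_norm_sq w, hw]; simp) x hx 0 h0I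
  have hKc : ∀ x ∈ E.I, (conj (a x) * b x).im = (conj (a 0) * b 0).im := fun x hx =>
    key (fun x => (conj (a x) * b x).im) (fun z z' => (conj z * z').im) (fun _ => rfl)
      (Complex.continuous_im.comp ((Complex.continuous_conj.comp continuous_fst).mul continuous_snd))
      (fun w z z' hw => by
        have : conj (w * z) * (w * z') = (Complex.normSq w : ℂ) * (conj z * z') := by
          rw [Complex.normSq_eq_conj_mul_self, map_mul]; ring
        rw [this, Complex.normSq_eq_norm_sq w, hw]; simp) x hx 0 h0I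
  set S : ℝ := Complex.normSq (a 0) with hS
  set K : ℝ := (conj (a 0) * b 0).im with hK
  -- the speed is positive
  have hS0 : S ≠ 0 := by
    intro hS0
    obtain ⟨δ, hδ, h1⟩ := gap F h0I
    have h2 : g 0 (δ / 2) = g 0 0 := by
      refine const_right (a := 0) (b := δ / 2) ?_ ?_ (by linarith)
      · exact fun t _ => (D1 0 h0I t).continuousAt.continuousWithinAt
      · intro t ht
        obtain ⟨h3, h4⟩ := h1 t ht.1 (by linarith [ht.2])
        have h5 := (R1 0 h0I t h3 ht.1 h4).1
        have h6 : a t = 0 := by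
          have := hSc t h3
          rw [hS0] at this
          exact Complex.normSq_eq_zero.1 this
        rw [h6] at h5
        rw [h5]
        exact (D1 0 h0I t).hasDerivWithinAt
    obtain ⟨h3, h4⟩ := h1 (δ / 2) (by linarith) (by linarith)
    obtain ⟨h5, h6⟩ := h1 0 le_rfl (by linarith)
    rw [← hg2 0 h0I _ h3 (by linarith) h4, ← hg2 0 h0I _ h5 le_rfl h6] at h2
    have := hh.injOn h3 h0I h2
    linarith
  set A : ℝ := K / S with hA
  have hb' : ∀ x ∈ E.I, b x = A * Complex.I * a x := by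
    intro x hx
    have h1 : (conj (a x) * b x).re = 0 := by
      obtain ⟨δ, hδ, h1⟩ := gap F hx
      have h2 : ∀ t, x ≤ t → t < x + δ → g1 x t * star (g1 x t) - S = 0 := by
        intro t h3 h4
        obtain ⟨h5, h6⟩ := h1 t h3 h4
        rw [← (R1 x hx t h5 h3 h6).1]
        have := hSc t h5
        rw [← this]
        have e : a t * star (a t) = (Complex.normSq (a t) : ℂ) := Complex.mul_conj _
        rw [e, sub_self]
      have h3 := jet1 (u := fun t => g1 x t * star (g1 x t) - S)
        (u1 := fun t => g2 x t * star (g1 x t) + g1 x t * star (g2 x t))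
        (fun t => ((D2 x hx t).mul (D2 x hx t).star).sub_const _)
        (by
          have e1 := C1 x hx
          have e2 := C2 x hx
          exact (e2.mul (continuous_star.comp e1)).add (e1.mul (continuous_star.comp e2))) hδ h2 x le_rfl (by linarith)
      have h4 : b x * conj (a x) + a x * conj (b x) = 0 := h3
      have h5 := congrArg Complex.re h4
      simp only [Complex.add_re, Complex.mul_re, Complex.conj_re, Complex.conj_im, Complex.zero_re] at h5 ⊢
      linarith
    have h2 : conj (a x) * b x = K * Complex.I := by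
      apply Complex.ext
      · rw [h1]; simp
      · rw [hKc x hx]; simp
    have h3 : a x * conj (a x) = S := by rw [Complex.mul_conj, hSc x hx]
    have hS' : (S : ℂ) ≠ 0 := by exact_mod_cast hS0
    have h4 : (S : ℂ) * b x = a x * (K * Complex.I) := by
      rw [← h3, ← h2]; ring
    have h5 : (A : ℂ) = K / S := by rw [hA]; push_cast; rfl
    rw [h5]
    field_simp
    linear_combination h4
  -- the unwound direction
  set w : ℝ → ℂ := fun x => a x * Complex.exp (-(A * x) * Complex.I) with hw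
  have hexp : ∀ t : ℝ, HasDerivAt (fun t : ℝ => Complex.exp (-(A * t) * Complex.I))
      (Complex.exp (-(A * t) * Complex.I) * (-(A : ℂ) * Complex.I)) t := by
    intro t
    have h1 : HasDerivAt (fun t : ℝ => -((A : ℂ) * t) * Complex.I) (-(A : ℂ) * Complex.I) t := by
      have := (((Complex.ofRealCLM.hasDerivAt (x := t)).const_mul (A : ℂ)).neg).mul_const Complex.I
      simpa using this
    exact h1.cexp
  have LC : ∀ x ∈ E.I, ∀ y ∈ E.I, x ≤ y → (∀ z ∈ F, z ≤ x ∨ y < z) → w y = w x := by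
    intro x hx y hy hxy hF
    have hd1 : ∀ t, HasDerivAt (fun t => g1 x t * Complex.exp (-(A * t) * Complex.I))
        (g2 x t * Complex.exp (-(A * t) * Complex.I) +
          g1 x t * (Complex.exp (-(A * t) * Complex.I) * (-(A : ℂ) * Complex.I))) t :=
      fun t => (D2 x hx t).mul (hexp t)
    have h1 := const_right (f := fun t => g1 x t * Complex.exp (-(A * t) * Complex.I)) (a := x) (b := y)
      (fun t _ => (hd1 t).continuousAt.continuousWithinAt) ?_ hxy
    · have h2 := (R1 x hx y hy hxy hF).1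
      simp only [hw]
      rw [h2]
      exact h1
    · intro t ht
      have htI : t ∈ E.I := ⟨hx.1.trans ht.1, ht.2.trans hy.2⟩
      have hF' : ∀ z ∈ F, z ≤ x ∨ t < z := by
        intro z hz
        rcases hF z hz with h2 | h2
        · exact Or.inl h2
        · exact Or.inr (ht.2.trans h2)
      obtain ⟨h3, h4⟩ := R1 x hx t htI ht.1 hF'
      have h5 := hb' t htI
      rw [h3, h4] at h5
      have h6 := (hd1 t).hasDerivWithinAt (s := Ici t)
      have h7 : g2 x t * Complex.exp (-(A * t) * Complex.I) +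
          g1 x t * (Complex.exp (-(A * t) * Complex.I) * (-(A : ℂ) * Complex.I)) = 0 := by
        rw [h5]; ring
      rw [h7] at h6
      exact h6
  have hwmap : ∀ j, ∀ x ∈ E.Ij j, w (E.map x) = (c j * Complex.exp (-(A * E.τ j) * Complex.I)) * w x := by
    intro j x hx
    simp only [hw]
    rw [(R2 j x hx).1, map_eq E hx]
    have : Complex.exp (-(A * ((x + E.τ j : ℝ) : ℂ)) * Complex.I)
        = Complex.exp (-(A * E.τ j) * Complex.I) * Complex.exp (-(A * x) * Complex.I) := by
      rw [← Complex.exp_add]; congr 1; push_cast; ring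
    rw [this]; ring
  have hJF : ∀ p ∈ E.I, 0 < p → Jump w p → p ∈ F := by
    intro p hp hp0 hJ
    by_contra hpF
    obtain ⟨x, hx0, hxp, hxF⟩ := gap_left F hp0 hpF
    obtain ⟨δ, hδ, h1⟩ := gap F hp
    have hxI : x ∈ E.I := ⟨hx0, hxp.trans hp.2⟩
    have h2 : ∀ y, x ≤ y → y < p + δ → w y = w x := by
      intro y h3 h4
      rcases le_total y p with h5 | h5
      · refine LC x hxI y ⟨hx0.trans h3, h5.trans_lt hp.2⟩ h3 fun z hz => ?_
        rcases hxF z hz with h6 | h6
        · exact Or.inl h6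
        · exact Or.inr (h5.trans_lt h6)
      · obtain ⟨h6, h7⟩ := h1 y h5 h4
        refine LC x hxI y h6 h3 fun z hz => ?_
        rcases h7 z hz with h8 | h8
        · rcases hxF z hz with h9 | h9
          · exact Or.inl h9
          · exact absurd h8 (not_le.2 h9)
        · exact Or.inr h8
    obtain ⟨y, hy1, hy2⟩ := hJ (min (p - x) δ) (lt_min (by linarith) hδ)
    rw [abs_lt] at hy1
    have m1 := min_le_left (p - x) δ
    have m2 := min_le_right (p - x) δ
    apply hy2
    rw [h2 y (by linarith [hy1.1]) (by linarith [hy1.2]), h2 p hxp.le (by linarith)]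
  -- no jumps inside the intervals
  have hnJ : ∀ p ∈ E.I, (∀ i, p ≠ E.left i) → ¬ Jump w p := fun p hp hpZ hJ =>
    hn (chain hd hE F hJF (fun j => mul_ne_zero (hc0 j) (Complex.exp_ne_zero _)) hwmap hp hpZ hJ)
  have hwc : ∀ j, ∀ x ∈ E.Ij j, w x = w (E.left j) := by
    intro j x hx
    have hright : ∀ t ∈ E.I, ∃ δ > 0, ∀ y, t ≤ y → y < t + δ → w y = w t := by
      intro t ht
      obtain ⟨δ, hδ, h1⟩ := gap F ht
      exact ⟨δ, hδ, fun y h2 h3 => LC t ht y (h1 y h2 h3).1 h2 (h1 y h2 h3).2⟩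
    refine const_right ?_ ?_ hx.1
    · intro t ht
      have htj : t ∈ E.Ij j := ⟨ht.1, ht.2.trans_lt hx.2⟩
      have htI := Ij_sub E j htj
      rcases eq_or_lt_of_le ht.1 with h1 | h1
      · obtain ⟨δ, hδ, h2⟩ := hright t htI
        have h3 : w =ᶠ[𝓝[Icc (E.left j) x] t] fun _ => w t := by
          rw [Filter.EventuallyEq, eventually_nhdsWithin_iff]
          filter_upwards [Iio_mem_nhds (show t < t + δ by linarith)] with y hy hy2
          exact h2 y (by rw [← h1]; exact hy2.1) hy
        exact (continuousWithinAt_const (b := w t)).congr_of_eventuallyEq h3 rfl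
      · have h2 : ¬ Jump w t := hnJ t htI (fun i hi => by
          have h3 : i = j := Ij_unique E (hi ▸ left_mem E i) htj
          rw [hi, h3] at h1
          exact lt_irrefl _ h1)
        unfold Jump at h2
        push Not at h2
        obtain ⟨ε, hε, h3⟩ := h2
        have h4 : w =ᶠ[𝓝 t] fun _ => w t := by
          filter_upwards [Metric.ball_mem_nhds t hε] with y hy
          exact h3 y (by rwa [Metric.mem_ball, Real.dist_eq] at hy)
        exact (continuousAt_const (y := w t)).congr_of_eventuallyEq h4 |>.continuousWithinAt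
    · intro t ht
      have htI : t ∈ E.I := Ij_sub E j ⟨ht.1, ht.2.trans hx.2⟩
      obtain ⟨δ, hδ, h2⟩ := hright t htI
      have h3 : w =ᶠ[𝓝[Ici t] t] fun _ => w t := by
        rw [Filter.EventuallyEq, eventually_nhdsWithin_iff]
        filter_upwards [Iio_mem_nhds (show t < t + δ by linarith)] with y hy hy2
        exact h2 y hy2 hy
      exact (hasDerivWithinAt_const t (Ici t) (w t)).congr_of_eventuallyEq h3 rfl
  -- the embedding on the intervals
  have ha' : ∀ j, ∀ x ∈ E.Ij j, a x = w (E.left j) * Complex.exp ((A * x) * Complex.I) := by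
    intro j x hx
    rw [← hwc j x hx]
    simp only [hw]
    rw [mul_assoc, ← Complex.exp_add]
    have : -((A : ℂ) * x) * Complex.I + A * x * Complex.I = 0 := by ring
    rw [this, Complex.exp_zero, mul_one]
  have hder : ∀ x ∈ E.I, HasDerivWithinAt h (a x) (Ici x) x := by
    intro x hx
    obtain ⟨δ, hδ, h1⟩ := gap F hx
    have h3 : h =ᶠ[𝓝[Ici x] x] g x := by
      rw [Filter.EventuallyEq, eventually_nhdsWithin_iff]
      filter_upwards [Iio_mem_nhds (show x < x + δ by linarith)] with y hy hy2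
      exact hg2 x hx y (h1 y hy2 hy).1 hy2 (h1 y hy2 hy).2
    exact (D1 x hx x).hasDerivWithinAt.congr_of_eventuallyEq h3
      (hg2 x hx x hx le_rfl (h1 x le_rfl (by linarith)).2)
  have hprim : ∀ (j : Fin d) (W : ℝ → ℂ), (∀ t : ℝ, HasDerivAt W (w (E.left j) * Complex.exp ((A * t) * Complex.I)) t) →
      ∀ x ∈ E.Ij j, h x = (h (E.left j) - W (E.left j)) + W x := by
    intro j W hW x hx
    have h1 := const_right (f := fun t => h t - W t) (a := E.left j) (b := x) ?_ ?_ hx.1
    · have h2 : h x - W x = h (E.left j) - W (E.left j) := h1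
      linear_combination h2
    · refine ContinuousOn.sub (hh.cont.mono ?_) (fun t _ => (hW t).continuousAt.continuousWithinAt)
      exact fun t ht => Ij_sub E j ⟨ht.1, ht.2.trans_lt hx.2⟩
    · intro t ht
      have htj : t ∈ E.Ij j := ⟨ht.1, ht.2.trans hx.2⟩
      have h2 := (hder t (Ij_sub E j htj)).sub ((hW t).hasDerivWithinAt (s := Ici t))
      rw [ha' j t htj, sub_self] at h2
      exact h2
  have hw0 : ∀ j, w (E.left j) ≠ 0 := by
    intro j h1
    have h2 := hSc (E.left j) (Ij_sub E j (left_mem E j))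
    have h3 : a (E.left j) = 0 := by rw [ha' j _ (left_mem E j), h1, zero_mul]
    rw [h3, Complex.normSq_zero] at h2
    exact hS0 h2.symm
  by_cases hA0 : A = 0
  · left
    refine ⟨fun j => h (E.left j) - w (E.left j) * E.left j, fun j => w (E.left j), fun j x hx => ?_⟩
    refine hprim j (fun t => w (E.left j) * t) (fun t => ?_) x hx
    have h1 : HasDerivAt (fun t : ℝ => w (E.left j) * (t : ℂ)) (w (E.left j) * 1) t :=
      (Complex.ofRealCLM.hasDerivAt (x := t)).const_mul _
    rw [hA0]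
    simpa using h1
  · right
    have hAc : (A : ℂ) ≠ 0 := by exact_mod_cast hA0
    set q : Fin d → ℂ := fun j => w (E.left j) / (A * Complex.I) with hq
    have hAI : (A : ℂ) * Complex.I ≠ 0 := mul_ne_zero hAc Complex.I_ne_zero
    have hq0 : ∀ j, q j ≠ 0 := fun j => div_ne_zero (hw0 j) hAI
    refine ⟨fun j => h (E.left j) - q j * Complex.exp ((A * E.left j) * Complex.I), fun j => ‖q j‖,
      fun _ => A, fun j => Complex.arg (q j), fun j => norm_pos_iff.2 (hq0 j), fun j x hx => ?_⟩
    have h1 := hprim j (fun t => q j * Complex.exp ((A * t) * Complex.I)) (fun t => ?_) x hx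
    · rw [h1]
      congr 1
      have h2 : Complex.I * ((A : ℂ) * x + (Complex.arg (q j) : ℝ)) = (Complex.arg (q j) : ℝ) * Complex.I
          + A * x * Complex.I := by ring
      rw [h2, Complex.exp_add, ← mul_assoc, Complex.norm_mul_exp_arg_mul_I]
    · have h2 : HasDerivAt (fun t : ℝ => (A : ℂ) * t * Complex.I) (A * Complex.I) t := by
        have := ((Complex.ofRealCLM.hasDerivAt (x := t)).const_mul (A : ℂ)).mul_const Complex.I
        simpa using this
      have h3 := (h2.cexp).const_mul (q j)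
      have h4 : q j * (A * Complex.I) = w (E.left j) := div_mul_cancel₀ _ hAI
      have h5 : q j * (Complex.exp ((A : ℂ) * t * Complex.I) * (A * Complex.I))
          = w (E.left j) * Complex.exp ((A : ℂ) * t * Complex.I) := by rw [← h4]; ring
      rw [h5] at h3
      exact h3

end Pool.Agent.KS6_56.IT
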