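import Mathlib
import Pool.Agent.KS6_56.IT.B

/-! An exchange with a connection has a non-trivial polygonal embedding. -/

set_option autoImplicit false

namespace Pool.Agent.KS6_56.IT

open Set Filter Topology MeasureTheory Pool.Agent.Results.MP_b9fb92_an.PolygonalArc

variable {d : ℕ}

/-- the Heaviside function -/
noncomputable def hv (q x : ℝ) : ℝ := if q ≤ x then 1 else 0

theorem hv_nonneg (q x : ℝ) : 0 ≤ hv q x := by unfold hv; split_ifs <;> norm_num

theorem hv_le (q x : ℝ) : hv q x ≤ 1 := by unfold hv; split_ifs <;> norm_num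

theorem hv_map (E : IET d) {q : ℝ} (hq : q ∈ E.I) {j : Fin d} {x x' : ℝ} (hx : x ∈ E.Ij j) (hx' : x' ∈ E.Ij j) :
    hv (E.map q) (E.map x') - hv (E.map q) (E.map x) = hv q x' - hv q x := by
  obtain ⟨i, hi⟩ := exists_Ij E hq
  by_cases hij : i = j
  · subst hij
    rw [map_eq E hi, map_eq E hx, map_eq E hx']
    unfold hv
    simp only [add_le_add_iff_right]
  · have h1 : hv q x' = hv q x := by
      have a1 := hi.1; have a2 := hi.2; have b1 := hx.1; have b2 := hx.2
      have c1 := hx'.1; have c2 := hx'.2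
      rw [left_eq] at a1 a2 b1 b2 c1 c2
      rcases lt_or_gt_of_ne hij with h | h
      · have := lft_add_le E.len_pos h
        unfold hv; rw [if_pos (by linarith), if_pos (by linarith)]
      · have := lft_add_le E.len_pos h
        unfold hv; rw [if_neg (by linarith), if_neg (by linarith)]
    have h2 : hv (E.map q) (E.map x') = hv (E.map q) (E.map x) := by
      have a := map_Ij E hi
      have b := map_Ij E hx
      have c := map_Ij E hx'
      have hne : E.perm i ≠ E.perm j := fun h => hij (E.perm.injective h)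
      rcases lt_or_gt_of_ne hne with h | h
      · have := lft_add_le (len'_pos E) h
        unfold hv; rw [if_pos (by linarith [a.2, c.1]), if_pos (by linarith [a.2, b.1])]
      · have := lft_add_le (len'_pos E) h
        unfold hv; rw [if_neg (by linarith [a.1, c.2]), if_neg (by linarith [a.1, b.2])]
    rw [h1, h2]; ring

theorem hv_left (E : IET d) (i : Fin d) {j : Fin d} {x x' : ℝ} (hx : x ∈ E.Ij j) (hx' : x' ∈ E.Ij j) :
    hv (E.left i) x' - hv (E.left i) x = 0 := by
  have b1 := hx.1; have b2 := hx.2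
  have c1 := hx'.1; have c2 := hx'.2
  rcases lt_trichotomy i j with h | h | h
  · have := lft_add_le E.len_pos h
    have := E.len_pos i
    rw [left_eq] at b1 b2 c1 c2 ⊢
    unfold hv; rw [if_pos (by linarith), if_pos (by linarith)]; ring
  · subst h
    unfold hv; rw [if_pos c1, if_pos b1]; ring
  · have := lft_add_le E.len_pos h
    rw [left_eq] at b1 b2 c1 c2 ⊢
    unfold hv; rw [if_neg (by linarith), if_neg (by linarith)]; ring

/-- number of points of the chain up to `x` -/
noncomputable def NN (E : IET d) (i0 : Fin d) (n : ℕ) (x : ℝ) : ℝ :=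
  ∑ i ∈ Finset.range (n + 1), hv (E.map^[i + 1] (E.left i0)) x

section chain

variable {E : IET d} {i0 k : Fin d} {n : ℕ}

theorem NN_nonneg (x : ℝ) : 0 ≤ NN E i0 n x := Finset.sum_nonneg fun _ _ => hv_nonneg _ _

theorem NN_le (x : ℝ) : NN E i0 n x ≤ n + 1 := by
  unfold NN
  refine (Finset.sum_le_sum fun _ _ => hv_le _ _).trans ?_
  simp

theorem left_I (E : IET d) (i : Fin d) : E.left i ∈ E.I := Ij_sub E i (left_mem E i)

theorem NN_map (hk : E.map^[n + 1] (E.left i0) = E.left k) {j : Fin d} {x x' : ℝ} (hx : x ∈ E.Ij j)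
    (hx' : x' ∈ E.Ij j) : NN E i0 n (E.map x') - NN E i0 n (E.map x) = NN E i0 n x' - NN E i0 n x := by
  unfold NN
  rw [← Finset.sum_sub_distrib, ← Finset.sum_sub_distrib]
  have h1 : ∀ i, hv (E.map^[i + 1] (E.left i0)) (E.map x') - hv (E.map^[i + 1] (E.left i0)) (E.map x)
      = hv (E.map^[i] (E.left i0)) x' - hv (E.map^[i] (E.left i0)) x := by
    intro i
    rw [Function.iterate_succ_apply']
    exact hv_map E (iter_mem E i (left_I E i0)) hx hx'
  rw [Finset.sum_congr rfl fun i _ => h1 i]
  rw [Finset.sum_range_succ' (fun i => hv (E.map^[i] (E.left i0)) x' - hv (E.map^[i] (E.left i0)) x),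
    Finset.sum_range_succ (fun i => hv (E.map^[i + 1] (E.left i0)) x' - hv (E.map^[i + 1] (E.left i0)) x)]
  have h2 := hv_left E i0 hx hx'
  have h3 := hv_left E k hx hx'
  rw [hk, h3]
  simp only [Function.iterate_zero, id_eq]
  rw [h2]

/-- the direction -/
noncomputable def ww (E : IET d) (i0 : Fin d) (n : ℕ) (x : ℝ) : ℂ :=
  Complex.exp ((NN E i0 n x / (n + 1) : ℝ) * Complex.I)

theorem ww_map (hk : E.map^[n + 1] (E.left i0) = E.left k) {j : Fin d} {x x' : ℝ} (hx : x ∈ E.Ij j)
    (hx' : x' ∈ E.Ij j) : ww E i0 n (E.map x') =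
      Complex.exp (((NN E i0 n (E.map x) - NN E i0 n x) / (n + 1) : ℝ) * Complex.I) * ww E i0 n x' := by
  unfold ww
  rw [← Complex.exp_add]
  congr 1
  have h := NN_map hk hx hx'
  have h2 : NN E i0 n (E.map x') = NN E i0 n (E.map x) - NN E i0 n x + NN E i0 n x' := by linarith
  rw [h2]; push_cast; ring

theorem ww_norm (x : ℝ) : ‖ww E i0 n x‖ = 1 := Complex.norm_exp_ofReal_mul_I _

theorem hv_meas (q : ℝ) : Measurable (hv q) := by
  unfold hv
  exact Measurable.ite measurableSet_Ici measurable_const measurable_const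

theorem NN_meas : Measurable (NN E i0 n) := by
  unfold NN
  exact Finset.measurable_sum _ fun i _ => hv_meas _

theorem ww_meas : Measurable (ww E i0 n) := by
  unfold ww
  have := NN_meas (E := E) (i0 := i0) (n := n)
  fun_prop

theorem ww_ii (a b : ℝ) : IntervalIntegrable (ww E i0 n) volume a b := by
  have h1 : IntervalIntegrable (fun _ : ℝ => (1 : ℝ)) volume a b := intervalIntegrable_const
  refine h1.mono_fun' ww_meas.aestronglyMeasurable ?_
  exact Eventually.of_forall fun x => (ww_norm x).le

/-- the arc -/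
noncomputable def hh (E : IET d) (i0 : Fin d) (n : ℕ) (x : ℝ) : ℂ := ∫ t in (0 : ℝ)..x, ww E i0 n t

theorem hh_sub (x y : ℝ) : hh E i0 n y - hh E i0 n x = ∫ t in x..y, ww E i0 n t := by
  unfold hh
  rw [sub_eq_iff_eq_add, add_comm]
  exact (intervalIntegral.integral_add_adjacent_intervals (ww_ii 0 x) (ww_ii x y)).symm

theorem hh_lip (x y : ℝ) : ‖hh E i0 n y - hh E i0 n x‖ ≤ |y - x| := by
  rw [hh_sub]
  have := intervalIntegral.norm_integral_le_of_norm_le_const (a := x) (b := y) (f := ww E i0 n) (C := 1)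
    (fun t _ => (ww_norm t).le)
  linarith

theorem hh_cont : Continuous (hh E i0 n) := by
  have : LipschitzWith 1 (hh E i0 n) := by
    refine LipschitzWith.of_dist_le_mul fun x y => ?_
    rw [dist_eq_norm, Real.dist_eq]
    simpa using hh_lip y x
  exact this.continuous

/-- the arc is straight where there are no points of the chain -/
theorem hh_straight {x y : ℝ} (hxy : x ≤ y) (h : ∀ i ≤ n, E.map^[i + 1] (E.left i0) ≤ x ∨ y < E.map^[i + 1] (E.left i0)) :
    hh E i0 n y = hh E i0 n x + ww E i0 n x * (y - x) := by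
  have h1 : ∀ t ∈ uIcc x y, ww E i0 n t = ww E i0 n x := by
    intro t ht
    rw [uIcc_of_le hxy] at ht
    have : NN E i0 n t = NN E i0 n x := by
      unfold NN
      apply Finset.sum_congr rfl
      intro i hi
      rw [Finset.mem_range] at hi
      unfold hv
      rcases h i (by omega) with h2 | h2
      · rw [if_pos (h2.trans ht.1), if_pos h2]
      · rw [if_neg (by linarith [ht.2]), if_neg (by linarith [ht.1, ht.2])]
    unfold ww; rw [this]
  have h2 := hh_sub (E := E) (i0 := i0) (n := n) x y
  rw [intervalIntegral.integral_congr h1, intervalIntegral.integral_const, Complex.real_smul] at h2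
  push_cast at h2
  linear_combination h2

theorem re_growth {x y : ℝ} (hxy : x ≤ y) : Real.cos 1 * (y - x) ≤ (hh E i0 n y).re - (hh E i0 n x).re := by
  have h1 : (hh E i0 n y).re - (hh E i0 n x).re = ∫ t in x..y, (ww E i0 n t).re := by
    rw [← Complex.sub_re, hh_sub]
    exact (Complex.reCLM.intervalIntegral_comp_comm (ww_ii x y)).symm
  rw [h1]
  have h2 : ∫ _ in x..y, Real.cos 1 ≤ ∫ t in x..y, (ww E i0 n t).re := by
    apply intervalIntegral.integral_mono_on hxy intervalIntegrable_const
    · have := (ww_ii (E := E) (i0 := i0) (n := n) x y)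
      exact ⟨this.1.re, this.2.re⟩
    · intro t _
      unfold ww
      rw [Complex.exp_ofReal_mul_I_re]
      have hn : (0 : ℝ) < n + 1 := by positivity
      apply Real.cos_le_cos_of_nonneg_of_le_pi
      · exact div_nonneg (NN_nonneg t) hn.le
      · linarith [Real.pi_gt_three]
      · rw [div_le_one hn]; exact NN_le t
  rw [intervalIntegral.integral_const, smul_eq_mul] at h2
  linarith

theorem cos1_pos : 0 < Real.cos 1 := Real.cos_one_pos

theorem re_mono : StrictMono fun x => (hh E i0 n x).re := by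
  intro x y hxy
  have h1 := re_growth (E := E) (i0 := i0) (n := n) hxy.le
  have h2 := mul_pos cos1_pos (sub_pos.2 hxy)
  show (hh E i0 n x).re < (hh E i0 n y).re
  linarith

theorem re_cont : Continuous fun x => (hh E i0 n x).re := Complex.continuous_re.comp hh_cont

theorem hh_zero : hh E i0 n 0 = 0 := by unfold hh; simp

theorem re_surj : Function.Surjective fun x => (hh E i0 n x).re := by
  intro r
  have h := mem_range_of_exists_le_of_exists_ge (re_cont (E := E) (i0 := i0) (n := n)) (c := r) ?_ ?_
  · exact h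
  · refine ⟨min (r / Real.cos 1) 0, ?_⟩
    have h0 : min (r / Real.cos 1) 0 ≤ 0 := min_le_right _ _
    have h1 : min (r / Real.cos 1) 0 ≤ r / Real.cos 1 := min_le_left _ _
    rw [le_div_iff₀ cos1_pos] at h1
    have h2 := re_growth (E := E) (i0 := i0) (n := n) h0
    rw [hh_zero, Complex.zero_re] at h2
    show (hh E i0 n _).re ≤ r
    linarith
  · refine ⟨max r 0 / Real.cos 1, ?_⟩
    have h0 : 0 ≤ max r 0 / Real.cos 1 := div_nonneg (le_max_right _ _) cos1_pos.le
    have h1 : Real.cos 1 * (max r 0 / Real.cos 1) = max r 0 := by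
      have := cos1_pos.ne'
      field_simp
    have h2 := re_growth (E := E) (i0 := i0) (n := n) h0
    rw [hh_zero, Complex.zero_re, sub_zero, sub_zero, h1] at h2
    show r ≤ (hh E i0 n _).re
    exact (le_max_left r 0).trans h2

/-- the conjugacy -/
theorem hh_map (hk : E.map^[n + 1] (E.left i0) = E.left k) {j : Fin d} {x : ℝ} (hx : x ∈ E.Ij j) :
    hh E i0 n (E.map x) =
      Complex.exp (((NN E i0 n (E.map (E.left j)) - NN E i0 n (E.left j)) / (n + 1) : ℝ) * Complex.I) * hh E i0 n x
      + (hh E i0 n (E.map (E.left j)) -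
      Complex.exp (((NN E i0 n (E.map (E.left j)) - NN E i0 n (E.left j)) / (n + 1) : ℝ) * Complex.I)
        * hh E i0 n (E.left j)) := by
  set c := Complex.exp (((NN E i0 n (E.map (E.left j)) - NN E i0 n (E.left j)) / (n + 1) : ℝ) * Complex.I) with hc
  have h1 : hh E i0 n (E.map x) - hh E i0 n (E.map (E.left j)) = c * (hh E i0 n x - hh E i0 n (E.left j)) := by
    rw [hh_sub, hh_sub, map_eq E hx, map_eq E (left_mem E j), ← intervalIntegral.integral_comp_add_right,
      ← intervalIntegral.integral_const_mul]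
    apply intervalIntegral.integral_congr
    intro t ht
    rw [uIcc_of_le hx.1] at ht
    have htj : t ∈ E.Ij j := ⟨ht.1, ht.2.trans_lt hx.2⟩
    have := ww_map hk (left_mem E j) htj
    rw [map_eq E htj] at this
    exact this
  linear_combination h1

end chain

theorem unit_angle {c : ℂ} (hc : ‖c‖ = 1) : ∃ θ ∈ Ico 0 (2 * Real.pi), Complex.exp ((θ : ℝ) * Complex.I) = c := by
  have h1 : Complex.exp ((Complex.arg c : ℝ) * Complex.I) = c := by
    have := Complex.norm_mul_exp_arg_mul_I c
    rw [hc] at this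
    simpa using this
  have hpi := Real.pi_pos
  have h2 := Complex.neg_pi_lt_arg c
  have h3 := Complex.arg_le_pi c
  rcases le_or_gt 0 (Complex.arg c) with h | h
  · exact ⟨_, ⟨h, by linarith⟩, h1⟩
  · refine ⟨Complex.arg c + 2 * Real.pi, ⟨by linarith, by linarith⟩, ?_⟩
    rw [← h1, Complex.exp_eq_exp_iff_exists_int]
    refine ⟨1, ?_⟩
    rw [h1]
    push_cast; ring

/-- piecewise isometries of the plane with vertical strips as atoms -/
theorem exists_pwi {m : ℕ} (E : IET (m + 1)) {ρ : ℝ → ℝ} (h1 : StrictMono ρ) (h2 : Continuous ρ)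
    (h3 : Function.Surjective ρ) (c lam : Fin (m + 1) → ℂ) (hc : ∀ j, ‖c j‖ = 1) :
    ∃ P : PWI (m + 1), P.X = univ ∧ (∀ j, P.atom j = {z | z.re ∈ ρ '' JJ E.len j}) ∧
      ∀ j, ∀ z ∈ P.atom j, P.T z = c j * z + lam j := by
  classical
  choose θ hθ hθc using fun j => unit_angle (hc j)
  have hdisj : ∀ i j : Fin (m + 1), ∀ z : ℂ, z.re ∈ ρ '' JJ E.len i → z.re ∈ ρ '' JJ E.len j → i = j := by
    rintro i j z ⟨t, ht, e1⟩ ⟨t', ht', e2⟩
    have : t = t' := h1.injective (e1.trans e2.symm)
    subst this
    by_contra hij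
    rcases lt_or_gt_of_ne hij with h | h
    · exact JJ_disjoint E.len_pos h ht ht'
    · exact JJ_disjoint E.len_pos h ht' ht
  refine ⟨{ X := univ
            atom := fun j => {z | z.re ∈ ρ '' JJ E.len j}
            nonempty := ?_
            convex := ?_
            disjoint := ?_
            union := ?_
            θ := θ
            θ_mem := hθ
            lam := lam
            T := fun z => if h : ∃ j, z.re ∈ ρ '' JJ E.len j then c h.choose * z + lam h.choose else z
            T_eq := ?_
            T_maps := fun _ _ => mem_univ _ }, rfl, fun _ => rfl, ?_⟩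
  · intro j
    exact ⟨(ρ (lft E.len j) : ℝ), lft E.len j, Ij_subset_JJ _ _ ⟨le_rfl, by linarith [E.len_pos j]⟩, by simp⟩
  · intro j
    have h4 : Convex ℝ (ρ '' JJ E.len j) :=
      (((JJ_ordConnected E.len j).isPreconnected).image _ h2.continuousOn).convex
    exact h4.is_linear_preimage (f := Complex.re) ⟨by simp, by simp⟩
  · intro i j hij
    rw [Set.disjoint_left]
    intro z h4 h5
    exact hij (hdisj i j z h4 h5)
  · refine eq_univ_of_forall fun z => ?_
    obtain ⟨t, ht⟩ := h3 z.re
    obtain ⟨j, hj⟩ := JJ_cover E.len E.len_pos t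
    exact mem_iUnion.2 ⟨j, t, hj, ht⟩
  · intro j z hz
    have h : ∃ j, z.re ∈ ρ '' JJ E.len j := ⟨j, hz⟩
    have hj : h.choose = j := hdisj _ _ z h.choose_spec hz
    simp only [dif_pos h, hj]
    rw [hθc]
  · intro j z hz
    have h : ∃ j, z.re ∈ ρ '' JJ E.len j := ⟨j, hz⟩
    have hj : h.choose = j := hdisj _ _ z h.choose_spec hz
    show (if h : ∃ j, z.re ∈ ρ '' JJ E.len j then c h.choose * z + lam h.choose else z) = _
    rw [dif_pos h, hj]

theorem three_norm {A B : ℂ} {r : ℝ} (h1 : ‖A‖ = r) (h2 : ‖A + B‖ = r) (h3 : ‖A + 2 * B‖ = r) : B = 0 := by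
  have hp := parallelogram_law_with_norm ℝ A (A + 2 * B)
  have e1 : A + (A + 2 * B) = 2 * (A + B) := by ring
  have e2 : A - (A + 2 * B) = -(2 * B) := by ring
  have e3 : ‖(2 : ℂ)‖ = 2 := by norm_num
  rw [e1, e2, norm_neg, norm_mul, norm_mul, e3, h1, h2, h3] at hp
  have : ‖B‖ * ‖B‖ = 0 := by nlinarith
  have : ‖B‖ = 0 := by nlinarith [norm_nonneg B]
  exact norm_eq_zero.1 this

/-- SUFFICIENCY -/
theorem sufficiency {m : ℕ} (E : IET (m + 1)) (hC : HasConnection E) :
    ∃ (P : PWI (m + 1)) (h : ℝ → ℂ), P.X = univ ∧ IsContinuousEmbedding E P h ∧ Polygonal E h ∧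
      ¬ IsTrivial E h := by
  obtain ⟨i0, k, n, hy, hk⟩ := hC
  rw [← Function.iterate_succ_apply] at hk
  obtain ⟨P, P1, P2, P3⟩ := exists_pwi E (re_mono (E := E) (i0 := i0) (n := n)) re_cont re_surj
    (fun j => Complex.exp (((NN E i0 n (E.map (E.left j)) - NN E i0 n (E.left j)) / (n + 1) : ℝ) * Complex.I))
    (fun j => hh E i0 n (E.map (E.left j)) -
      Complex.exp (((NN E i0 n (E.map (E.left j)) - NN E i0 n (E.left j)) / (n + 1) : ℝ) * Complex.I)
        * hh E i0 n (E.left j)) (fun j => Complex.norm_exp_ofReal_mul_I _)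
  have hatom : ∀ j, ∀ x ∈ E.Ij j, hh E i0 n x ∈ P.atom j := by
    intro j x hx
    rw [P2]
    exact ⟨x, Ij_subset_JJ _ _ hx, rfl⟩
  have hconj : ∀ x ∈ E.I, hh E i0 n (E.map x) = P.T (hh E i0 n x) := by
    intro x hx
    obtain ⟨j, hj⟩ := exists_Ij E hx
    rw [P3 j _ (hatom j x hj)]
    exact hh_map hk hj
  have hemb : Topology.IsEmbedding (hh E i0 n) := by
    have h1 : Topology.IsEmbedding (fun x => (hh E i0 n x).re) := by
      refine re_mono.isEmbedding_of_ordConnected ?_
      rw [re_surj.range_eq]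
      exact ordConnected_univ
    exact Topology.IsEmbedding.of_comp hh_cont Complex.continuous_re h1
  refine ⟨P, hh E i0 n, P1, ⟨⟨?_, ?_, ?_, ?_, ?_, hconj⟩, hh_cont.continuousOn⟩, ?_, ?_⟩
  · exact hemb.injective.injOn
  · intro x _; rw [P1]; exact mem_univ _
  · ext z
    constructor
    · rintro ⟨_, ⟨x, hx, rfl⟩, rfl⟩
      exact ⟨E.map x, map_mem E hx, hconj x hx⟩
    · rintro ⟨y, hy, rfl⟩
      obtain ⟨x, hx, rfl⟩ := map_surj E hy
      exact ⟨_, ⟨x, hx, rfl⟩, by rw [← hconj x hx]⟩
  · intro j
    exact hemb.comp Topology.IsEmbedding.subtypeVal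
  · refine ⟨Equiv.refl _, ?_⟩
    rintro j _ ⟨x, hx, rfl⟩
    exact hatom j x hx
  · -- polygonal
    classical
    refine ⟨(Finset.range (n + 1)).image (fun i => E.map^[i + 1] (E.left i0)), fun x hx =>
      ⟨hh E i0 n x - ww E i0 n x * x, ww E i0 n x, fun y hy hxy hF => ?_⟩⟩
    rw [hh_straight hxy (fun i hi => hF _ (Finset.mem_image.2 ⟨i, Finset.mem_range.2 (by omega), rfl⟩))]
    ring
  · -- not trivial
    classical
    set y := E.map (E.left i0) with hydef
    have hyI : y ∈ E.I := map_mem E (left_I E i0)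
    obtain ⟨j, hj⟩ := exists_Ij E hyI
    have hly : E.left j < y := lt_of_le_of_ne hj.1 (hy j).symm
    set F := (Finset.range (n + 1)).image (fun i => E.map^[i + 1] (E.left i0)) with hFdef
    have hFm : ∀ i ≤ n, E.map^[i + 1] (E.left i0) ∈ F := fun i hi =>
      Finset.mem_image.2 ⟨i, Finset.mem_range.2 (by omega), rfl⟩
    obtain ⟨δ, hδ, g1⟩ := gap F hyI
    have hy0 : 0 < y := lt_of_le_of_lt (left_nonneg E j) hly
    obtain ⟨x0, hx0, hx1, g2⟩ := gap_left (F.erase y) hy0 (Finset.notMem_erase y F)
    -- the right side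
    set ε := min δ (E.left j + E.len j - y) with hε
    have hε0 : 0 < ε := lt_min hδ (by linarith [hj.2])
    have e1 : ε ≤ δ := min_le_left _ _
    have e2 : ε ≤ E.left j + E.len j - y := min_le_right _ _
    have hR : ∀ t, y ≤ t → t < y + ε → t ∈ E.Ij j ∧ hh E i0 n t = hh E i0 n y + ww E i0 n y * (t - y) := by
      intro t h1 h2
      refine ⟨⟨hly.le.trans h1, by linarith⟩, ?_⟩
      exact hh_straight h1 (fun i hi => (g1 t h1 (by linarith)).2 _ (hFm i hi))
    -- the left side
    set x := max x0 (E.left j) with hx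
    have hxy : x < y := max_lt hx1 hly
    have hL : ∀ t, x ≤ t → t < y → t ∈ E.Ij j ∧ hh E i0 n t = hh E i0 n x + ww E i0 n x * (t - x) := by
      intro t h1 h2
      refine ⟨⟨(le_max_right _ _).trans h1, h2.trans hj.2⟩, ?_⟩
      refine hh_straight h1 (fun i hi => ?_)
      by_cases h3 : E.map^[i + 1] (E.left i0) = y
      · right; rw [h3]; exact h2
      · rcases g2 _ (Finset.mem_erase.2 ⟨h3, hFm i hi⟩) with h4 | h4
        · left; exact h4.trans (le_max_left _ _)
        · right; exact h2.trans h4
    rintro (⟨z, v, H⟩ | ⟨z, r, a, b, hr, H⟩)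
    · -- linear
      have a1 := H j y hj
      obtain ⟨m1, m2⟩ := hR (y + ε / 2) (by linarith) (by linarith)
      have a2 := H j _ m1
      obtain ⟨m3, m4⟩ := hL x le_rfl hxy
      have a3 := H j _ m3
      obtain ⟨m5, m6⟩ := hL ((x + y) / 2) (by linarith) (by linarith)
      have a4 := H j _ m5
      have v1 : v j = ww E i0 n y := by
        rw [m2, a1] at a2
        have h5 : ((ε / 2 : ℝ) : ℂ) * (v j - ww E i0 n y) = 0 := by
          push_cast at a2 ⊢
          linear_combination -a2
        rcases mul_eq_zero.1 h5 with h6 | h6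
        · have : (ε / 2 : ℝ) = 0 := by exact_mod_cast h6
          linarith
        · exact sub_eq_zero.1 h6
      have v2 : v j = ww E i0 n x := by
        rw [m6, a3] at a4
        have h5 : (((y - x) / 2 : ℝ) : ℂ) * (v j - ww E i0 n x) = 0 := by
          push_cast at a4 ⊢
          linear_combination -a4
        rcases mul_eq_zero.1 h5 with h6 | h6
        · have : ((y - x) / 2 : ℝ) = 0 := by exact_mod_cast h6
          linarith
        · exact sub_eq_zero.1 h6
      -- the directions differ
      have hN1 : NN E i0 n x + 1 ≤ NN E i0 n y := by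
        unfold NN
        rw [Finset.sum_range_succ', Finset.sum_range_succ' (fun i => hv (E.map^[i + 1] (E.left i0)) y)]
        have b1 : hv (E.map^[0 + 1] (E.left i0)) y = 1 := by
          unfold hv; rw [if_pos]; exact le_rfl
        have b2 : hv (E.map^[0 + 1] (E.left i0)) x = 0 := by
          unfold hv; rw [if_neg]; exact not_le.2 hxy
        rw [b1, b2]
        have b3 : ∑ i ∈ Finset.range n, hv (E.map^[i + 1 + 1] (E.left i0)) x
            ≤ ∑ i ∈ Finset.range n, hv (E.map^[i + 1 + 1] (E.left i0)) y := by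
          apply Finset.sum_le_sum
          intro i _
          unfold hv
          split_ifs with c1 c2
          · exact le_rfl
          · exact absurd (c1.trans hxy.le) c2
          · norm_num
          · exact le_rfl
        linarith
      have hN2 : NN E i0 n y ≤ n + 1 := NN_le y
      have hN3 : 0 ≤ NN E i0 n x := NN_nonneg x
      have hww : ww E i0 n x = ww E i0 n y := v2.symm.trans v1
      have hn : (0 : ℝ) < n + 1 := by positivity
      unfold ww at hww
      have hc := congrArg Complex.re hww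
      rw [Complex.exp_ofReal_mul_I_re, Complex.exp_ofReal_mul_I_re] at hc
      have hlt : Real.cos (NN E i0 n y / (n + 1)) < Real.cos (NN E i0 n x / (n + 1)) := by
        apply Real.cos_lt_cos_of_nonneg_of_le_pi
        · exact div_nonneg hN3 hn.le
        · have : NN E i0 n y / (n + 1) ≤ 1 := by rw [div_le_one hn]; exact hN2
          linarith [Real.pi_gt_three]
        · exact div_lt_div_of_pos_right (by linarith) hn
      linarith
    · -- arc
      have key : ∀ t, y ≤ t → t < y + ε → ‖hh E i0 n y - z j + ww E i0 n y * (t - y)‖ = r j := by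
        intro t h1 h2
        obtain ⟨m1, m2⟩ := hR t h1 h2
        have h3 := H j t m1
        have h4 : hh E i0 n y - z j + ww E i0 n y * (t - y) = r j * Complex.exp (Complex.I * (a j * t + b j)) := by
          rw [m2] at h3
          linear_combination h3
        rw [h4, norm_mul, Complex.norm_real, Real.norm_eq_abs, abs_of_pos (hr j)]
        have : Complex.I * (a j * t + b j) = ((a j * t + b j : ℝ) : ℂ) * Complex.I := by push_cast; ring
        rw [this, Complex.norm_exp_ofReal_mul_I, mul_one]
      have k0 := key y le_rfl (by linarith)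
      have k1 := key (y + ε / 4) (by linarith) (by linarith)
      have k2 := key (y + ε / 2) (by linarith) (by linarith)
      rw [sub_self, mul_zero, add_zero] at k0
      have e3 : ww E i0 n y * (((y + ε / 4 : ℝ) : ℂ) - y) = ww E i0 n y * ((ε / 4 : ℝ) : ℂ) := by push_cast; ring
      have e4 : ww E i0 n y * (((y + ε / 2 : ℝ) : ℂ) - y) = 2 * (ww E i0 n y * ((ε / 4 : ℝ) : ℂ)) := by push_cast; ring
      rw [e3] at k1
      rw [e4] at k2
      have h5 := three_norm k0 k1 k2
      rcases mul_eq_zero.1 h5 with h6 | h6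
      · have := ww_norm (E := E) (i0 := i0) (n := n) y
        rw [h6, norm_zero] at this
        norm_num at this
      · have : (ε / 4 : ℝ) = 0 := by exact_mod_cast h6
        linarith

end Pool.Agent.KS6_56.IT
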