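import Mathlib
import Pool.Agent.KS6_56.IT.A

/-! Exchanges with rationally independent lengths have no connection. -/

set_option autoImplicit false

namespace Pool.Agent.KS6_56.IT

open Set Pool.Agent.Results.MP_b9fb92_an.PolygonalArc

variable {d : ℕ} {E : IET d}

/-- the visits of an orbit -/
theorem visits (E : IET d) {x : ℝ} {j0 : Fin d} (hx : x ∈ E.Ij j0) (N : ℕ) :
    ∃ c : Fin d → ℕ, 1 ≤ c j0 ∧ ∑ l, c l = N + 1 ∧ E.map^[N + 1] x = x + ∑ l, (c l : ℝ) * E.τ l := by
  classical
  induction N with
  | zero =>
    refine ⟨Pi.single j0 1, by simp, by simp, ?_⟩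
    rw [Function.iterate_one, map_eq E hx, Finset.sum_eq_single j0]
    · simp
    · intro b _ hb; simp [hb]
    · simp
  | succ N ih =>
    obtain ⟨c, h1, h2, h3⟩ := ih
    obtain ⟨j, hj⟩ := exists_Ij E (iter_mem E (N + 1) (Ij_sub E j0 hx))
    refine ⟨c + Pi.single j 1, ?_, ?_, ?_⟩
    · simp only [Pi.add_apply]; omega
    · simp only [Pi.add_apply, Finset.sum_add_distrib]
      rw [h2]; simp
    · rw [Function.iterate_succ_apply', map_eq E hj, h3]
      simp only [Pi.add_apply, Nat.cast_add, add_mul, Finset.sum_add_distrib]
      have : ∑ l, ((Pi.single j 1 : Fin d → ℕ) l : ℝ) * E.τ l = E.τ j := by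
        rw [Finset.sum_eq_single j]
        · simp
        · intro b _ hb; simp [hb]
        · simp
      rw [this]; ring

/-- the combinatorial contradiction -/
theorem comb {c : Fin d → ℕ} {i0 k : Fin d} (π : Equiv.Perm (Fin d))
    (hirr : ∀ k : ℕ, 1 ≤ k → k < d → π '' {j : Fin d | (j : ℕ) < k} ≠ {j : Fin d | (j : ℕ) < k})
    (hd : 2 ≤ d) (h1 : 1 ≤ c i0) (h2 : 2 ≤ ∑ l, c l)
    (h : ∀ q : Fin d, (if q < k then 1 else 0) + ∑ l, c l * (if q < l then 1 else 0)
      = (if q < i0 then 1 else 0) + ∑ l, c l * (if π q < π l then 1 else 0)) : False := by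
  classical
  set A : Fin d → ℕ := fun q => ∑ l, c l * (if q < l then 1 else 0) with hA
  set B : Fin d → ℕ := fun q => ∑ l, c l * (if π q < π l then 1 else 0) with hB
  have h' : ∀ q : Fin d, (if q < k then 1 else 0) + A q = (if q < i0 then 1 else 0) + B q := h
  -- the symmetric identity
  have sym : ∑ q, c q * A q = ∑ q, c q * B q := by
    have e1 : ∑ q, c q * A q = ∑ q, ∑ l, c q * (c l * (if q < l then 1 else 0)) := by
      simp only [hA, Finset.mul_sum]
    have e2 : ∑ q, c q * B q = ∑ q, ∑ l, c q * (c l * (if π q < π l then 1 else 0)) := by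
      simp only [hB, Finset.mul_sum]
    have e3 : ∑ q, ∑ l, c q * (c l * (if q < l then 1 else 0)) = ∑ q, ∑ l, c q * (c l * (if l < q then 1 else 0)) := by
      rw [Finset.sum_comm]
      apply Finset.sum_congr rfl; intro q _
      apply Finset.sum_congr rfl; intro l _
      ring
    have e4 : ∑ q, ∑ l, c q * (c l * (if π q < π l then 1 else 0))
        = ∑ q, ∑ l, c q * (c l * (if π l < π q then 1 else 0)) := by
      rw [Finset.sum_comm]
      apply Finset.sum_congr rfl; intro q _
      apply Finset.sum_congr rfl; intro l _
      ring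
    have e5 : 2 * ∑ q, c q * A q = 2 * ∑ q, c q * B q := by
      rw [two_mul, two_mul]
      nth_rewrite 2 [e1]
      nth_rewrite 2 [e2]
      rw [e3, e4, e1, e2, ← Finset.sum_add_distrib, ← Finset.sum_add_distrib]
      apply Finset.sum_congr rfl; intro q _
      rw [← Finset.sum_add_distrib, ← Finset.sum_add_distrib]
      apply Finset.sum_congr rfl; intro l _
      rw [← mul_add, ← mul_add, ← mul_add, ← mul_add]
      congr 2
      by_cases hql : q = l
      · subst hql; simp
      · have hne : π q ≠ π l := fun h => hql (π.injective h)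
        rcases lt_or_gt_of_ne hql with g1 | g1 <;> rcases lt_or_gt_of_ne hne with g2 | g2 <;>
          simp [g1, g2, not_lt.2 g1.le, not_lt.2 g2.le]
    omega
  have sum1 : ∑ q, c q * (if q < k then 1 else 0) = ∑ q, c q * (if q < i0 then 1 else 0) := by
    have e : ∑ q, c q * ((if q < k then 1 else 0) + A q) = ∑ q, c q * ((if q < i0 then 1 else 0) + B q) :=
      Finset.sum_congr rfl fun q _ => by rw [h' q]
    simp only [mul_add, Finset.sum_add_distrib] at e
    omega
  have hki : k ≤ i0 := by
    by_contra hcon
    push Not at hcon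
    have e : ∑ q, c q * (if q < i0 then 1 else 0) < ∑ q, c q * (if q < k then 1 else 0) := by
      apply Finset.sum_lt_sum
      · intro q _
        apply Nat.mul_le_mul_left
        split_ifs with g1 g2
        · exact le_rfl
        · exact absurd (g1.trans hcon) g2
        · norm_num
        · exact le_rfl
      · refine ⟨i0, Finset.mem_univ _, ?_⟩
        rw [if_neg (lt_irrefl _), if_pos hcon]; omega
    omega
  have hz : ∀ q, k ≤ q → q < i0 → c q = 0 := by
    intro q hq1 hq2
    by_contra hq
    have e : ∑ q, c q * (if q < k then 1 else 0) < ∑ q, c q * (if q < i0 then 1 else 0) := by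
      apply Finset.sum_lt_sum
      · intro q _
        apply Nat.mul_le_mul_left
        split_ifs with g1 g2
        · exact le_rfl
        · exact absurd (g1.trans_le hki) g2
        · norm_num
        · exact le_rfl
      · refine ⟨q, Finset.mem_univ _, ?_⟩
        rw [if_neg (not_lt.2 hq1), if_pos hq2]; omega
    omega
  -- monotonicity
  have mA : ∀ q p, q < p → A p + c p ≤ A q := by
    intro q p hqp
    have e : A p + c p = ∑ l, c l * (if p ≤ l then 1 else 0) := by
      have e1 : c p = ∑ l, c l * (if l = p then 1 else 0) := by simp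
      rw [e1, ← Finset.sum_add_distrib]
      apply Finset.sum_congr rfl; intro l _
      rw [← mul_add]
      congr 1
      by_cases g : l = p
      · subst g; simp
      · rcases lt_or_gt_of_ne g with g1 | g1
        · simp [g, not_lt.2 g1.le, not_le.2 g1]
        · simp [g, g1, g1.le]
    rw [e]
    apply Finset.sum_le_sum
    intro l _
    apply Nat.mul_le_mul_left
    split_ifs with g1 g2
    · exact le_rfl
    · exact absurd (hqp.trans_le g1) g2
    · norm_num
    · exact le_rfl
  have mB : ∀ q p, π q < π p → B p + c p ≤ B q := by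
    intro q p hqp
    have e : B p + c p = ∑ l, c l * (if π p ≤ π l then 1 else 0) := by
      have e1 : c p = ∑ l, c l * (if l = p then 1 else 0) := by simp
      rw [e1, ← Finset.sum_add_distrib]
      apply Finset.sum_congr rfl; intro l _
      rw [← mul_add]
      congr 1
      by_cases g : l = p
      · subst g; simp
      · have g' : π l ≠ π p := fun h => g (π.injective h)
        rcases lt_or_gt_of_ne g' with g1 | g1
        · simp [g, not_lt.2 g1.le, not_le.2 g1]
        · simp [g, g1, g1.le]
    rw [e]
    apply Finset.sum_le_sum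
    intro l _
    apply Nat.mul_le_mul_left
    split_ifs with g1 g2
    · exact le_rfl
    · exact absurd (hqp.trans_le g1) g2
    · norm_num
    · exact le_rfl
  have mA' : ∀ q p, p ≤ q → A q ≤ A p := by
    intro q p hqp
    rcases eq_or_lt_of_le hqp with g | g
    · rw [g]
    · have := mA p q g; omega
  have mB' : ∀ q p, π p ≤ π q → B q ≤ B p := by
    intro q p hqp
    rcases eq_or_lt_of_le hqp with g | g
    · rw [π.injective g]
    · have := mB p q g; omega
  have hPA : ∀ p, 1 ≤ c p → A p = B p := by
    intro p hp
    have e := h' p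
    by_cases g1 : p < k
    · rw [if_pos g1, if_pos (g1.trans_le hki)] at e; omega
    · have g2 : ¬ p < i0 := fun g2 => by have := hz p (not_lt.1 g1) g2; omega
      rw [if_neg g1, if_neg g2] at e; omega
  -- same predecessors
  have main : ∀ p, 1 ≤ c p → ¬ (p = i0 ∧ c i0 = 1) → ∀ q, q < p ↔ π q < π p := by
    intro p hp hex q
    have e := h' q
    have ep := hPA p hp
    constructor
    · intro hq
      by_contra hcon
      have a1 := mA q p hq
      have a2 := mB' q p (not_lt.1 hcon)
      -- `A q > A p = B p ≥ B q`
      by_cases g2 : q < i0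
      · by_cases g1 : q < k
        · rw [if_pos g1, if_pos g2] at e; omega
        · rw [if_neg g1, if_pos g2] at e
          have a3 : A i0 + c i0 ≤ A q := mA q i0 g2
          -- `p ≥ i0`
          have hpi : i0 ≤ p := by
            by_contra hcon2
            have := hz p ((not_lt.1 g1).trans hq.le) (not_le.1 hcon2)
            omega
          have a4 := mA' p i0 hpi
          -- `A q = A i0 + c i0`
          rcases eq_or_lt_of_le hpi with g3 | g3
          · apply hex
            refine ⟨g3.symm, ?_⟩
            rw [← g3] at a1 a2 ep hp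
            omega
          · have a5 := mA i0 p g3
            omega
      · have g1 : ¬ q < k := fun g1 => g2 (g1.trans_le hki)
        rw [if_neg g1, if_neg g2] at e; omega
    · intro hq
      by_contra hcon
      have a1 := mB q p hq
      have a2 := mA' q p (not_lt.1 hcon)
      by_cases g2 : q < i0
      · by_cases g1 : q < k
        · rw [if_pos g1, if_pos g2] at e; omega
        · rw [if_neg g1, if_pos g2] at e; omega
      · have g1 : ¬ q < k := fun g1 => g2 (g1.trans_le hki)
        rw [if_neg g1, if_neg g2] at e; omega
  -- contradiction with irreducibility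
  have fin : ∀ p, 1 ≤ c p → ¬ (p = i0 ∧ c i0 = 1) → False := by
    intro p hp hex
    have hm := main p hp hex
    have hcard : (p : ℕ) = (π p : ℕ) := by
      have e1 : (Finset.univ.filter (fun q => q < p)).map π.toEmbedding = Finset.univ.filter (fun r => r < π p) := by
        ext r
        simp only [Finset.mem_map, Finset.mem_filter, Finset.mem_univ, true_and, Equiv.coe_toEmbedding]
        constructor
        · rintro ⟨q, hq, rfl⟩; exact (hm q).1 hq
        · intro hr
          exact ⟨π.symm r, (hm _).2 (by simpa using hr), by simp⟩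
      have e2 := congrArg Finset.card e1
      rw [Finset.card_map] at e2
      have e3 : ∀ a : Fin d, (Finset.univ.filter (fun q => q < a)).card = (a : ℕ) := by
        intro a
        have : Finset.univ.filter (fun q => q < a) = Finset.Iio a := by ext; simp
        rw [this, Fin.card_Iio]
      rw [e3, e3] at e2
      exact e2
    rcases Nat.eq_zero_or_pos (p : ℕ) with h0 | h0
    · refine hirr 1 le_rfl (by omega) ?_
      ext r
      simp only [mem_image, mem_ofPred_eq]
      have hp0 : p = ⟨0, by omega⟩ := Fin.ext h0
      have hπ0 : (π p : ℕ) = 0 := by omega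
      constructor
      · rintro ⟨q, hq, rfl⟩
        have : q = p := Fin.ext (by omega)
        rw [this]; omega
      · intro hr
        exact ⟨p, by omega, Fin.ext (by omega)⟩
    · refine hirr p h0 p.2 ?_
      ext r
      simp only [mem_image, mem_ofPred_eq]
      constructor
      · rintro ⟨q, hq, rfl⟩
        have := (hm q).1 (Fin.lt_def.2 hq)
        rw [Fin.lt_def] at this
        omega
      · intro hr
        refine ⟨π.symm r, ?_, by simp⟩
        have := (hm (π.symm r)).2 (by rw [Equiv.apply_symm_apply, Fin.lt_def]; omega)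
        exact this
  by_cases hc1 : c i0 = 1
  · -- another visited interval
    have : ∃ p, p ≠ i0 ∧ 1 ≤ c p := by
      by_contra hcon
      push Not at hcon
      have e : ∑ l, c l = c i0 := by
        apply Finset.sum_eq_single
        · intro b _ hb; have := hcon b hb; omega
        · simp
      omega
    obtain ⟨p, hp1, hp2⟩ := this
    exact fin p hp2 (fun g => hp1 g.1)
  · exact fin i0 h1 (fun g => hc1 g.2)

/-- KEANE'S LEMMA for connections of length at least two -/
theorem no_connection (hd : 2 ≤ d) (hE : LinearIndependent ℚ E.len) : ¬ HasConnection E := by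
  classical
  rintro ⟨i0, k, n, hy, hk⟩
  rw [← Function.iterate_succ_apply] at hk
  obtain ⟨c, c1, c2, c3⟩ := visits E (left_mem E i0) n
  have hn : n ≠ 0 := by
    rintro rfl
    exact hy k hk
  have hleft : ∀ j, E.left j = ∑ q, E.len q * (if q < j then 1 else 0) := by
    intro j
    unfold IET.left
    rw [Finset.sum_filter]
    apply Finset.sum_congr rfl; intro q _
    split_ifs <;> simp
  have hτ : ∀ l, E.τ l = ∑ q, E.len q * ((if E.perm q < E.perm l then 1 else 0) - (if q < l then 1 else 0)) := by
    intro l
    unfold IET.τ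
    rw [Finset.sum_filter, Finset.sum_filter, ← Finset.sum_sub_distrib]
    apply Finset.sum_congr rfl; intro q _
    split_ifs <;> simp
  rw [hk, hleft, hleft] at c3
  have h1 : ∑ l, (c l : ℝ) * E.τ l = ∑ q, E.len q *
      ∑ l, (c l : ℝ) * ((if E.perm q < E.perm l then 1 else 0) - (if q < l then 1 else 0)) := by
    simp only [hτ, Finset.mul_sum]
    rw [Finset.sum_comm]
    apply Finset.sum_congr rfl; intro q _
    apply Finset.sum_congr rfl; intro l _
    ring
  rw [h1] at c3
  have h2 : ∑ q, (((if q < i0 then 1 else 0) + ∑ l, (c l : ℚ) * ((if E.perm q < E.perm l then 1 else 0)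
      - (if q < l then 1 else 0)) - (if q < k then 1 else 0) : ℚ)) • E.len q = 0 := by
    have h3 : ∀ q, (((if q < i0 then 1 else 0) + ∑ l, (c l : ℚ) * ((if E.perm q < E.perm l then 1 else 0)
      - (if q < l then 1 else 0)) - (if q < k then 1 else 0) : ℚ)) • E.len q
        = E.len q * (if q < i0 then 1 else 0) + E.len q * ∑ l, (c l : ℝ) * ((if E.perm q < E.perm l then 1 else 0)
      - (if q < l then 1 else 0)) - E.len q * (if q < k then 1 else 0) := by
      intro q
      rw [Rat.smul_def]
      simp only [Rat.cast_add, Rat.cast_sub, Rat.cast_sum, Rat.cast_mul, Rat.cast_natCast,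
        apply_ite (Rat.cast : ℚ → ℝ), Rat.cast_one, Rat.cast_zero]
      ring
    rw [Finset.sum_congr rfl fun q _ => h3 q, Finset.sum_sub_distrib, Finset.sum_add_distrib]
    linarith
  have h4 := linearIndependent_iff'.1 hE Finset.univ _ h2
  refine comb (c := c) (i0 := i0) (k := k) E.perm E.irreducible hd c1 (by omega) fun q => ?_
  have h5 := h4 q (Finset.mem_univ q)
  have h6 : ∑ l, (c l : ℚ) * ((if E.perm q < E.perm l then 1 else 0) - (if q < l then 1 else 0))
      = ∑ l, (c l : ℚ) * (if E.perm q < E.perm l then 1 else 0) - ∑ l, (c l : ℚ) * (if q < l then 1 else 0) := by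
    rw [← Finset.sum_sub_distrib]
    apply Finset.sum_congr rfl; intro l _
    ring
  rw [h6] at h5
  have h7 : (((if q < k then 1 else 0) + ∑ l, c l * (if q < l then 1 else 0) : ℕ) : ℚ)
      = (((if q < i0 then 1 else 0) + ∑ l, c l * (if E.perm q < E.perm l then 1 else 0) : ℕ) : ℚ) := by
    push_cast
    linarith
  exact_mod_cast h7

end Pool.Agent.KS6_56.IT
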